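import Pool.Agent.Q121.LC.Main

/-!
A finitely generated ideal with residue zero and nonzero first component has
projective dimension at least two.
-/

open CategoryTheory Filter

namespace Q121.LC

variable {Λ κ : Type} [CommRing Λ] [Field κ] {ρ : Λ →+* κ}

/-- minimal generating finset of a finitely generated ideal -/
theorem exists_min (J : Ideal Λ) (hJ : J.FG) : ∃ T : Finset Λ, Ideal.span (T : Set Λ) = J ∧
    ∀ T' : Finset Λ, Ideal.span (T' : Set Λ) = J → T.card ≤ T'.card := by
  classical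
  have h : ∃ n : ℕ, ∃ T : Finset Λ, T.card = n ∧ Ideal.span (T : Set Λ) = J := by
    obtain ⟨T, hT⟩ := hJ
    exact ⟨T.card, T, rfl, hT⟩
  obtain ⟨T, h1, h2⟩ := Nat.find_spec h
  refine ⟨T, h2, fun T' hT' => ?_⟩
  rw [h1]
  exact Nat.find_min' h ⟨T', rfl, hT'⟩

/-- The key matrix argument: a projective submodule of a free module all of whose elements have
residue zero in each coordinate has first components zero. -/
theorem proj_zero (hu : ∀ l, ρ l ≠ 0 → IsUnit l) {ι : Type} [Fintype ι]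
    (P : Submodule (RR ρ) (ι → RR ρ)) [Module.Projective (RR ρ) P]
    (hP : ∀ p ∈ P, ∀ j, ρ (p j).1.1 = 0) : ∀ p ∈ P, ∀ j, (p j).1.1 = 0 := by
  classical
  obtain ⟨σ, hσ⟩ := Module.projective_def'.1 ‹Module.Projective (RR ρ) P›
  have hσ' : ∀ p : P, Finsupp.linearCombination (RR ρ) id (σ p) = p := fun p =>
    LinearMap.congr_fun hσ p
  -- residues of the coefficients
  have hres : ∀ p t : P, ρ ((σ p) t).1.1 = 0 := by
    intro p t
    apply res_zero
    have h1 : ∀ᶠ i in atTop, ∀ j, (p.1 j).1.2 i = 0 := by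
      rw [Filter.eventually_all]
      intro j
      filter_upwards [ev (p.1 j)] with i hi
      rw [hi, hP p.1 p.2 j]
    filter_upwards [h1] with i hi
    have h2 : e ρ i • p = 0 := by
      apply Subtype.ext
      funext j
      exact (e_mul_eq_zero_iff i (p.1 j)).2 (hi j)
    have h3 : e ρ i * (σ p) t = 0 := by
      have h4 : σ (e ρ i • p) = 0 := by rw [h2, map_zero]
      rw [map_smul] at h4
      exact DFunLike.congr_fun h4 t
    exact (e_mul_eq_zero_iff i _).1 h3
  intro p0 hp0
  set p : P := ⟨p0, hp0⟩ with hpdef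
  set x := σ p with hx
  -- fixed point equation
  have hfix : ∀ t' : P, (x t').1.1 = ∑ t ∈ x.support, (x t).1.1 * ((σ t) t').1.1 := by
    intro t'
    have h1 : σ (Finsupp.linearCombination (RR ρ) id x) = x := by rw [hσ' p]
    rw [Finsupp.linearCombination_apply, Finsupp.sum, map_sum] at h1
    have h2 := DFunLike.congr_fun h1 t'
    rw [Finsupp.finsetSum_apply] at h2
    rw [← h2]
    change fsth ρ _ = _
    rw [map_sum]
    refine Finset.sum_congr rfl fun t _ => ?_
    rw [map_smul]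
    rfl
  have hzero : ∀ t ∈ x.support, (x t).1.1 = 0 := by
    let v : x.support → Λ := fun t => (x t.1).1.1
    let A : Matrix x.support x.support Λ := fun t t' => ((σ t.1) t'.1).1.1
    have hv : Matrix.vecMul v A = v := by
      funext t'
      rw [Matrix.vecMul, dotProduct]
      change ∑ t : x.support, (x t.1).1.1 * ((σ t.1) t'.1).1.1 = (x t'.1).1.1
      rw [hfix t'.1, ← Finset.sum_coe_sort x.support
        (fun t => (x t).1.1 * ((σ t) t'.1).1.1)]
    have hdet : ρ (1 - A).det = 1 := by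
      rw [RingHom.map_det]
      have h5 : ρ.mapMatrix (1 - A) = 1 := by
        have h6 : ρ.mapMatrix A = 0 := by
          ext t t'
          exact hres t.1 t'.1
        rw [map_sub, h6, sub_zero, RingHom.mapMatrix_apply,
          Matrix.map_one ρ (map_zero ρ) (map_one ρ)]
      rw [h5, Matrix.det_one]
    have hunit : IsUnit (1 - A) := by
      rw [Matrix.isUnit_iff_isUnit_det]
      exact hu _ (by rw [hdet]; exact one_ne_zero)
    have h7 : Matrix.vecMul v (1 - A) = Matrix.vecMul 0 (1 - A) := by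
      rw [Matrix.vecMul_sub, Matrix.vecMul_one, hv, sub_self, Matrix.zero_vecMul]
    have h8 := Matrix.vecMul_injective_of_isUnit hunit h7
    intro t ht
    exact congrFun h8 ⟨t, ht⟩
  intro j
  have h9 : p0 j = ∑ t ∈ x.support, x t * t.1 j := by
    have h10 := hσ' p
    rw [Finsupp.linearCombination_apply, Finsupp.sum] at h10
    have h11 := congrArg (fun z : P => z.1 j) h10
    simp only [Submodule.coe_sum, Finset.sum_apply] at h11
    exact h11.symm
  rw [h9]
  change fsth ρ _ = 0
  rw [map_sum]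
  refine Finset.sum_eq_zero fun t ht => ?_
  rw [map_mul]
  change (x t).1.1 * _ = 0
  rw [hzero t ht, zero_mul]

theorem caseB2 (hu : ∀ l, ρ l ≠ 0 → IsUnit l) (hz : ∀ m, ρ m = 0 → ∃ l, l ≠ 0 ∧ l * m = 0)
    (L : Ideal (RR ρ)) (hL : L.FG)
    (hpd : HasProjectiveDimensionLT (ModuleCat.of (RR ρ) L) 2)
    (h : ∀ u ∈ L, ρ u.1.1 = 0) (u0 : RR ρ) (hu0 : u0 ∈ L) (hne : u0.1.1 ≠ 0) : False := by
  classical
  obtain ⟨N, hN⟩ := eventually_atTop.1 (fg_bound L hL h)
  -- the idempotent
  let f : RR ρ := ⟨(1, fun i => if N ≤ i then 1 else 0), by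
    change ∀ᶠ i in atTop, (if N ≤ i then (1 : κ) else 0) = ρ 1
    filter_upwards [eventually_ge_atTop N] with i hi
    rw [if_pos hi, map_one]⟩
  have hf1 : ∀ l : RR ρ, (f * l).1.1 = l.1.1 := fun l => one_mul _
  have hf2 : ∀ l ∈ L, ∀ i, (f * l).1.2 i = 0 := by
    intro l hl i
    change (if N ≤ i then (1 : κ) else 0) * l.1.2 i = 0
    by_cases hi : N ≤ i
    · rw [hN i hi l hl, mul_zero]
    · rw [if_neg hi, zero_mul]
  -- the ideal of first components
  set J : Ideal Λ := L.map (fsth ρ) with hJ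
  have hJmem : ∀ m, m ∈ J ↔ ∃ l ∈ L, l.1.1 = m := fun m =>
    Ideal.mem_map_iff_of_surjective (fsth ρ) fsth_surj
  obtain ⟨T, hT, hmin⟩ := exists_min J (hL.map (fsth ρ))
  have hTJ : ∀ t ∈ T, t ∈ J := fun t ht => by
    rw [← hT]
    exact Ideal.subset_span ht
  have hρT : ∀ t ∈ T, ρ t = 0 := by
    intro t ht
    obtain ⟨l, hl, hlt⟩ := (hJmem t).1 (hTJ t ht)
    rw [← hlt]
    exact h l hl
  have hTne : T.Nonempty := by
    rw [Finset.nonempty_iff_ne_empty]
    rintro rfl
    rw [Finset.coe_empty, Ideal.span_empty] at hT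
    have h1 : u0.1.1 ∈ J := (hJmem _).2 ⟨u0, hu0, rfl⟩
    rw [← hT, Ideal.mem_bot] at h1
    exact hne h1
  let zt : T → RR ρ := fun t => z0 ρ t.1 (hρT t.1 t.2)
  have hztL : ∀ t, zt t ∈ L := by
    intro t
    obtain ⟨l, hl, hlt⟩ := (hJmem t.1).1 (hTJ t.1 t.2)
    have h1 : zt t = f * l := by
      apply ext'
      · rw [hf1, hlt]; rfl
      · intro i
        rw [hf2 l hl]; rfl
    rw [h1]
    exact L.mul_mem_left _ hl
  let q : (T → RR ρ) →ₗ[RR ρ] RR ρ := Fintype.linearCombination (RR ρ) zt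
  have hq : ∀ a, q a = ∑ t, a t * zt t := fun a => by
    rw [Fintype.linearCombination_apply]
    rfl
  let L0 : Submodule (RR ρ) (RR ρ) := LinearMap.range q
  have hL0L : L0 ≤ L := by
    rintro _ ⟨a, rfl⟩
    rw [hq]
    exact L.sum_mem fun t _ => L.mul_mem_left _ (hztL t)
  have hL02 : ∀ a ∈ L0, ∀ i, a.1.2 i = 0 := by
    rintro _ ⟨a, rfl⟩ i
    rw [hq]
    change evh ρ i _ = 0
    rw [map_sum]
    refine Finset.sum_eq_zero fun t _ => ?_
    rw [map_mul]
    change _ * (0 : κ) = 0
    rw [mul_zero]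
  have hlift : ∀ m ∈ J, ∃ a ∈ L0, a.1.1 = m := by
    intro m hm
    rw [← hT] at hm
    refine Submodule.span_induction (p := fun m _ => ∃ a ∈ L0, a.1.1 = m) ?_ ?_ ?_ ?_ hm
    · intro t ht
      refine ⟨zt ⟨t, ht⟩, ⟨Pi.single ⟨t, ht⟩ 1, ?_⟩, rfl⟩
      rw [hq, Finset.sum_eq_single ⟨t, ht⟩]
      · rw [Pi.single_eq_same, one_mul]
      · intro b _ hb
        rw [Pi.single_eq_of_ne hb, zero_mul]
      · intro hb
        exact absurd (Finset.mem_univ _) hb
    · exact ⟨0, L0.zero_mem, rfl⟩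
    · rintro a b _ _ ⟨a', ha', rfl⟩ ⟨b', hb', rfl⟩
      exact ⟨a' + b', L0.add_mem ha' hb', rfl⟩
    · rintro c a _ ⟨a', ha', rfl⟩
      exact ⟨lft ρ c * a', L0.smul_mem _ ha', rfl⟩
  have hfL0 : ∀ l ∈ L, f * l ∈ L0 := by
    intro l hl
    obtain ⟨a, ha, hal⟩ := hlift l.1.1 ((hJmem _).2 ⟨l, hl, rfl⟩)
    have h1 : f * l = a := by
      apply ext'
      · rw [hf1, hal]
      · intro i
        rw [hf2 l hl, hL02 a ha]
    rw [h1]
    exact ha
  -- the retract
  have hpd0 : HasProjectiveDimensionLT (ModuleCat.of (RR ρ) L0) 2 := by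
    let r : L →ₗ[RR ρ] L0 := LinearMap.codRestrict L0
      ((LinearMap.mulLeft (RR ρ) f).comp (Submodule.subtype L)) (fun l => hfL0 l.1 l.2)
    have R : Retract (ModuleCat.of (RR ρ) L0) (ModuleCat.of (RR ρ) L) :=
      { i := ModuleCat.ofHom (Submodule.inclusion hL0L)
        r := ModuleCat.ofHom r
        retract := by
          refine ModuleCat.hom_ext (LinearMap.ext fun a => ?_)
          apply Subtype.ext
          change f * a.1 = a.1
          apply ext'
          · rw [hf1]
          · intro i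
            rw [hf2 a.1 (hL0L a.2), hL02 a.1 a.2] }
    exact R.hasProjectiveDimensionLT 2
  have hproj : Module.Projective (RR ρ) (LinearMap.ker q.rangeRestrict) :=
    (pd_iff q.rangeRestrict q.surjective_rangeRestrict).1 hpd0
  have hker : ∀ p, p ∈ LinearMap.ker q.rangeRestrict ↔ ∑ t : T, p t * zt t = 0 := by
    intro p
    rw [LinearMap.ker_rangeRestrict, LinearMap.mem_ker, hq]
  -- minimality
  have hPres : ∀ p ∈ LinearMap.ker q.rangeRestrict, ∀ j, ρ (p j).1.1 = 0 := by
    intro p hp j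
    by_contra hc
    rw [hker] at hp
    have h1 : ∑ t : T, (p t).1.1 * t.1 = 0 := by
      have h2 := congrArg (fsth ρ) hp
      rw [map_sum, map_zero] at h2
      rw [← h2]
      refine Finset.sum_congr rfl fun t _ => ?_
      rw [map_mul]
      rfl
    obtain ⟨w, hw⟩ := (hu _ hc).exists_left_inv
    have h3 : j.1 ∈ Ideal.span ((T.erase j.1 : Finset Λ) : Set Λ) := by
      have h4 : j.1 = -w * ∑ t ∈ Finset.univ.erase j, (p t).1.1 * t.1 := by
        have h5 : (p j).1.1 * j.1 + ∑ t ∈ Finset.univ.erase j, (p t).1.1 * t.1 = 0 := by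
          rw [Finset.add_sum_erase Finset.univ (fun t : T => (p t).1.1 * t.1)
            (Finset.mem_univ j)]
          exact h1
        calc j.1 = w * (p j).1.1 * j.1 := by rw [hw, one_mul]
          _ = w * ((p j).1.1 * j.1 + ∑ t ∈ Finset.univ.erase j, (p t).1.1 * t.1) -
              w * ∑ t ∈ Finset.univ.erase j, (p t).1.1 * t.1 := by ring
          _ = _ := by rw [h5]; ring
      have key : -w * ∑ t ∈ Finset.univ.erase j, (p t).1.1 * t.1 ∈
          Ideal.span ((T.erase j.1 : Finset Λ) : Set Λ) := by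
        refine Ideal.mul_mem_left _ _ (Ideal.sum_mem _ fun t ht => ?_)
        refine Ideal.mul_mem_left _ _ (Ideal.subset_span ?_)
        rw [Finset.mem_coe, Finset.mem_erase]
        exact ⟨fun h6 => (Finset.ne_of_mem_erase ht) (Subtype.ext h6), t.2⟩
      rw [← h4] at key
      exact key
    have h7 : Ideal.span ((T.erase j.1 : Finset Λ) : Set Λ) = J := by
      rw [← hT]
      apply le_antisymm
      · exact Ideal.span_mono (by
          rw [Finset.coe_erase]
          exact Set.sdiff_subset)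
      · rw [Ideal.span_le]
        intro t ht
        by_cases htj : t = j.1
        · rw [htj]; exact h3
        · exact Ideal.subset_span (by
            rw [Finset.mem_coe, Finset.mem_erase]
            exact ⟨htj, ht⟩)
    have h8 := hmin _ h7
    rw [Finset.card_erase_of_mem j.2] at h8
    have h9 : 0 < T.card := Finset.card_pos.2 hTne
    omega
  have hall := proj_zero hu (LinearMap.ker q.rangeRestrict) hPres
  obtain ⟨t0, ht0⟩ := hTne
  obtain ⟨l, hl0, hl⟩ := hz t0 (hρT t0 ht0)
  have hp : (Pi.single ⟨t0, ht0⟩ (lft ρ l) : T → RR ρ) ∈ LinearMap.ker q.rangeRestrict := by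
    rw [hker, Finset.sum_eq_single ⟨t0, ht0⟩]
    · rw [Pi.single_eq_same]
      apply ext'
      · exact hl
      · intro i
        change ρ l * 0 = 0
        rw [mul_zero]
    · intro b _ hb
      rw [Pi.single_eq_of_ne hb, zero_mul]
    · intro hb
      exact absurd (Finset.mem_univ _) hb
  have h10 := hall _ hp ⟨t0, ht0⟩
  rw [Pi.single_eq_same] at h10
  exact hl0 h10

/-- All finitely generated ideals of projective dimension at most one are finitely presented. -/
theorem weak_coherent (hu : ∀ l, ρ l ≠ 0 → IsUnit l)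
    (hz : ∀ m, ρ m = 0 → ∃ l, l ≠ 0 ∧ l * m = 0)
    (L : Ideal (RR ρ)) (hL : L.FG)
    (hpd : HasProjectiveDimensionLT (ModuleCat.of (RR ρ) L) 2) :
    Module.FinitePresentation (RR ρ) L := by
  by_cases h1 : ∃ u ∈ L, ρ u.1.1 ≠ 0
  · obtain ⟨u, hu1, hu2⟩ := h1
    obtain ⟨g, hg, hg2⟩ := caseA hu L u hu1 hu2
    exact fp_of_idem L g hg hg2
  · push Not at h1
    by_cases h2 : ∃ u ∈ L, u.1.1 ≠ 0
    · obtain ⟨u, hu1, hu2⟩ := h2
      exact (caseB2 hu hz L hL hpd h1 u hu1 hu2).elim
    · push Not at h2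
      obtain ⟨g, hg, hg2⟩ := caseB1 L hL h2
      exact fp_of_idem L g hg hg2

end Q121.LC
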