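import Mathlib

/-!
The ring of pairs `(l, c)` with `l` in a local ring and `c` a sequence in the residue field
which is eventually equal to the residue of `l`.
-/

open CategoryTheory Filter

namespace Q121.LC

/-! ### projective dimension at most one -/

section pd

variable {R : Type} [CommRing R]

/-- The short complex `ker f → F → N`. -/
noncomputable def kerComplex {F N : Type} [AddCommGroup F] [Module R F] [AddCommGroup N]
    [Module R N] (f : F →ₗ[R] N) : ShortComplex (ModuleCat.{0} R) :=
  ShortComplex.mk (ModuleCat.ofHom (LinearMap.ker f).subtype) (ModuleCat.ofHom f) (by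
    ext x
    simp)

theorem kerComplex_shortExact {F N : Type} [AddCommGroup F] [Module R F] [AddCommGroup N]
    [Module R N] (f : F →ₗ[R] N) (hf : Function.Surjective f) :
    (kerComplex f).ShortExact := by
  refine ShortComplex.ShortExact.mk' ?_ ?_ ?_
  · rw [ShortComplex.moduleCat_exact_iff]
    intro x hx
    exact ⟨⟨x, hx⟩, rfl⟩
  · rw [ModuleCat.mono_iff_injective]
    exact Subtype.val_injective
  · rw [ModuleCat.epi_iff_surjective]
    exact hf

theorem pd_iff {F N : Type} [AddCommGroup F] [Module R F] [AddCommGroup N]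
    [Module R N] [Module.Projective R F] (f : F →ₗ[R] N) (hf : Function.Surjective f) :
    HasProjectiveDimensionLT (ModuleCat.of R N) 2 ↔ Module.Projective R (LinearMap.ker f) := by
  have h := (kerComplex_shortExact f hf).hasProjectiveDimensionLT_X₃_iff 0
    ((IsProjective.iff_projective (R := R) F).1 inferInstance)
  rw [← projective_iff_hasProjectiveDimensionLT_one] at h
  rw [IsProjective.iff_projective (R := R) (LinearMap.ker f)]
  exact h

end pd

variable {Λ κ : Type} [CommRing Λ] [Field κ] (ρ : Λ →+* κ)

/-- The ring. -/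
def RR : Subring (Λ × (ℕ → κ)) where
  carrier := {p | ∀ᶠ i in atTop, p.2 i = ρ p.1}
  mul_mem' := by
    intro a b ha hb
    filter_upwards [ha, hb] with i h1 h2
    simp [h1, h2]
  one_mem' := by simp
  add_mem' := by
    intro a b ha hb
    filter_upwards [ha, hb] with i h1 h2
    simp [h1, h2]
  zero_mem' := by simp
  neg_mem' := by
    intro a ha
    filter_upwards [ha] with i h1
    simp [h1]

variable {ρ}

theorem ext' {a b : RR ρ} (h1 : a.1.1 = b.1.1) (h2 : ∀ i, a.1.2 i = b.1.2 i) : a = b :=
  Subtype.ext (Prod.ext h1 (funext h2))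

theorem ev (a : RR ρ) : ∀ᶠ i in atTop, a.1.2 i = ρ a.1.1 := a.2

/-- If the second component is eventually `0` then the residue is `0`. -/
theorem res_zero (a : RR ρ) (h : ∀ᶠ i in atTop, a.1.2 i = 0) : ρ a.1.1 = 0 := by
  obtain ⟨i, h1, h2⟩ := ((ev a).and h).exists
  rw [← h1, h2]

/-- The idempotents. -/
noncomputable def e (ρ : Λ →+* κ) (i : ℕ) : RR ρ :=
  ⟨(0, Pi.single i 1), by
    change ∀ᶠ j in atTop, (Pi.single i (1 : κ) : ℕ → κ) j = ρ 0
    filter_upwards [eventually_gt_atTop i] with j hj
    rw [map_zero, Pi.single_eq_of_ne (by omega)]⟩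

/-- The constant lift of an element of `Λ`. -/
def lft (ρ : Λ →+* κ) (l : Λ) : RR ρ := ⟨(l, fun _ => ρ l), by
    change ∀ᶠ j in atTop, _
    simp⟩

/-- The lift of an element with residue `0`. -/
def z0 (ρ : Λ →+* κ) (l : Λ) (h : ρ l = 0) : RR ρ := ⟨(l, fun _ => 0), by
    change ∀ᶠ j in atTop, _
    simp [h]⟩

theorem e_mul (i : ℕ) (a : RR ρ) :
    (e ρ i * a) = ⟨(0, Pi.single i (a.1.2 i)), by
      change ∀ᶠ j in atTop, (Pi.single i (a.1.2 i) : ℕ → κ) j = ρ 0
      filter_upwards [eventually_gt_atTop i] with j hj
      rw [map_zero, Pi.single_eq_of_ne (by omega)]⟩ := by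
  apply ext'
  · simp [e]
  · intro j
    by_cases hj : j = i
    · subst hj; simp [e]
    · simp [e, Pi.single_eq_of_ne hj]

theorem e_mul_eq_zero_iff (i : ℕ) (a : RR ρ) : e ρ i * a = 0 ↔ a.1.2 i = 0 := by
  rw [e_mul]
  constructor
  · intro h
    have h2 := congrArg (fun z : RR ρ => z.1.2 i) h
    simpa using h2
  · intro h
    apply ext'
    · rfl
    · intro j
      simp [h]

/-- A submodule `L` of the ring with `g ∈ L`, `l * g = l` on `L`, is projective and finite. -/
theorem fp_of_idem {R : Type} [CommRing R] (L : Submodule R R) (g : R) (hg : g ∈ L)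
    (h : ∀ l ∈ L, l * g = l) : Module.FinitePresentation R L := by
  have hp : Module.Projective R L := by
    refine Module.Projective.of_split (M := R) L.subtype
      (LinearMap.codRestrict L (LinearMap.mulRight R g) ?_) ?_
    · intro c
      exact L.smul_mem c hg
    · ext l
      exact h l.1 l.2
  have hf : Module.Finite R L := by
    refine Module.Finite.of_surjective (M := R)
      (LinearMap.codRestrict L (LinearMap.mulRight R g) (fun c => L.smul_mem c hg)) ?_
    intro l
    exact ⟨l.1, Subtype.ext (h l.1 l.2)⟩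
  exact Module.finitePresentation_of_projective R L

end Q121.LC
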