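import Pool.Agent.Q121.LC.B2

/-!
The concrete local ring: the trivial extension of `ℚ⟦t⟧⟦X⟧` by `Frac / ℚ⟦t⟧⟦X⟧`.
-/

open CategoryTheory Filter

namespace Q121.LC

/-- the base domain -/
abbrev A0 : Type := PowerSeries (PowerSeries ℚ)

/-- its fraction field -/
abbrev Q0 : Type := FractionRing A0

/-- the module `Frac / A` -/
def M0 : Type := Q0 ⧸ (LinearMap.range (Algebra.linearMap A0 Q0))

noncomputable instance : AddCommGroup M0 :=
  inferInstanceAs (AddCommGroup (Q0 ⧸ (LinearMap.range (Algebra.linearMap A0 Q0))))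

noncomputable instance : Module A0 M0 :=
  inferInstanceAs (Module A0 (Q0 ⧸ (LinearMap.range (Algebra.linearMap A0 Q0))))

noncomputable instance : Module A0ᵐᵒᵖ M0 :=
  Module.compHom M0 ((RingHom.id A0).fromOpposite fun a b => mul_comm a b)

instance : IsCentralScalar A0 M0 := ⟨fun _ _ => rfl⟩

/-- the class of an element of the fraction field -/
noncomputable def cls : Q0 →ₗ[A0] M0 := Submodule.mkQ _

theorem cls_eq_zero (q : Q0) : cls q = 0 ↔ ∃ a : A0, algebraMap A0 Q0 a = q := by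
  exact (Submodule.Quotient.mk_eq_zero (LinearMap.range (Algebra.linearMap A0 Q0))
    (x := q)).trans Iff.rfl

theorem cls_surj (m : M0) : ∃ q, cls q = m := Submodule.mkQ_surjective _ m

/-- the residue map of the base domain -/
noncomputable def ρA : A0 →+* ℚ :=
  (PowerSeries.constantCoeff (R := ℚ)).comp (PowerSeries.constantCoeff (R := PowerSeries ℚ))

theorem ρA_unit (a : A0) (h : ρA a ≠ 0) : IsUnit a := by
  rw [PowerSeries.isUnit_iff_constantCoeff, PowerSeries.isUnit_iff_constantCoeff]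
  exact isUnit_iff_ne_zero.2 h

/-- the local ring -/
abbrev Λ0 : Type := TrivSqZeroExt A0 M0

/-- the residue map -/
noncomputable def ρ0 : Λ0 →+* ℚ :=
  ρA.comp (TrivSqZeroExt.fstHom A0 A0 M0).toRingHom

theorem ρ0_apply (l : Λ0) : ρ0 l = ρA l.fst := rfl

theorem ρ0_unit (l : Λ0) (h : ρ0 l ≠ 0) : IsUnit l := by
  rw [TrivSqZeroExt.isUnit_iff_isUnit_fst]
  exact ρA_unit _ h

/-- the two elements -/
noncomputable def xA : A0 := PowerSeries.X

noncomputable def yA : A0 := PowerSeries.C (PowerSeries.X : PowerSeries ℚ)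

theorem xA_res : ρA xA = 0 := by simp [ρA, xA]

theorem yA_res : ρA yA = 0 := by simp [ρA, yA]

theorem xA_ne : xA ≠ 0 := PowerSeries.X_ne_zero

theorem key (b c : A0) (h : yA * b = xA * c) : ∃ b', b = xA * b' := by
  have h1 : (PowerSeries.X : A0) ∣ b := by
    rw [PowerSeries.X_dvd_iff]
    have h2 := congrArg (PowerSeries.constantCoeff (R := PowerSeries ℚ)) h
    rw [map_mul, map_mul] at h2
    simp only [yA, xA, PowerSeries.constantCoeff_C, PowerSeries.constantCoeff_X, zero_mul] at h2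
    exact (mul_eq_zero.1 h2).resolve_left PowerSeries.X_ne_zero
  obtain ⟨b', hb'⟩ := h1
  exact ⟨b', hb'⟩

theorem M_key (m : M0) (hx : xA • m = 0) (hy : yA • m = 0) : m = 0 := by
  obtain ⟨q, rfl⟩ := cls_surj m
  rw [← map_smul, cls_eq_zero] at hx hy
  obtain ⟨b, hb⟩ := hx
  obtain ⟨c, hc⟩ := hy
  rw [Algebra.smul_def] at hb hc
  have hinj : Function.Injective (algebraMap A0 Q0) := IsFractionRing.injective A0 Q0
  have h1 : yA * b = xA * c := by
    apply hinj
    rw [map_mul, map_mul, hb, hc]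
    ring
  obtain ⟨b', hb'⟩ := key b c h1
  rw [cls_eq_zero]
  refine ⟨b', ?_⟩
  have h2 : algebraMap A0 Q0 xA ≠ 0 := by
    intro h3
    exact xA_ne (hinj (by rw [h3, map_zero]))
  apply mul_left_cancel₀ h2
  rw [← hb, hb', map_mul]

theorem M_zero_div (a : A0) (ha : ρA a = 0) : ∃ m : M0, m ≠ 0 ∧ a • m = 0 := by
  have hinj : Function.Injective (algebraMap A0 Q0) := IsFractionRing.injective A0 Q0
  have main : ∀ b : A0, b ≠ 0 → ρA b = 0 → cls (algebraMap A0 Q0 b)⁻¹ ≠ 0 ∧
      b • cls (algebraMap A0 Q0 b)⁻¹ = 0 := by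
    intro b hb hb0
    have h2 : algebraMap A0 Q0 b ≠ 0 := by
      intro h3
      exact hb (hinj (by rw [h3, map_zero]))
    constructor
    · intro h
      rw [cls_eq_zero] at h
      obtain ⟨c, hc⟩ := h
      have h3 : c * b = 1 := by
        apply hinj
        rw [map_mul, hc, map_one, inv_mul_cancel₀ h2]
      have h4 : ρA c * ρA b = 1 := by rw [← map_mul, h3, map_one]
      rw [hb0, mul_zero] at h4
      exact zero_ne_one h4
    · rw [← map_smul, cls_eq_zero]
      refine ⟨1, ?_⟩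
      rw [map_one, Algebra.smul_def, mul_inv_cancel₀ h2]
  by_cases h0 : a = 0
  · exact ⟨_, (main xA xA_ne xA_res).1, by rw [h0, zero_smul]⟩
  · exact ⟨_, main a h0 ha⟩

theorem Λ_zero_div (m : Λ0) (hm : ρ0 m = 0) : ∃ l : Λ0, l ≠ 0 ∧ l * m = 0 := by
  obtain ⟨n, hn, hn2⟩ := M_zero_div m.fst hm
  refine ⟨TrivSqZeroExt.inr n, ?_, ?_⟩
  · intro h
    apply hn
    have h2 := congrArg TrivSqZeroExt.snd h
    simpa using h2
  · apply TrivSqZeroExt.ext
    · simp
    · rw [TrivSqZeroExt.snd_mul, TrivSqZeroExt.fst_inr, TrivSqZeroExt.snd_inr, zero_smul, zero_add,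
        TrivSqZeroExt.snd_zero]
      change m.fst • n = 0
      exact hn2

theorem Λ_pair (l : Λ0) (hx : l * TrivSqZeroExt.inl xA = 0) (hy : l * TrivSqZeroExt.inl yA = 0) :
    l = 0 := by
  have h1 := congrArg TrivSqZeroExt.fst hx
  rw [TrivSqZeroExt.fst_mul, TrivSqZeroExt.fst_inl, TrivSqZeroExt.fst_zero] at h1
  have h2 : l.fst = 0 := (mul_eq_zero.1 h1).resolve_right xA_ne
  have hx2 := congrArg TrivSqZeroExt.snd hx
  have hy2 := congrArg TrivSqZeroExt.snd hy
  rw [TrivSqZeroExt.snd_mul, TrivSqZeroExt.fst_inl, TrivSqZeroExt.snd_inl, smul_zero, zero_add,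
    TrivSqZeroExt.snd_zero] at hx2 hy2
  apply TrivSqZeroExt.ext
  · exact h2
  · exact M_key l.snd hx2 hy2

/-- The final ring. -/
theorem final : (∀ L : Ideal (RR ρ0), L.FG →
      HasProjectiveDimensionLT (ModuleCat.of (RR ρ0) L) 2 →
      Module.FinitePresentation (RR ρ0) L) ∧
    ∃ K : Submodule (RR ρ0) (Fin 2 → RR ρ0), K.FG ∧
      HasProjectiveDimensionLT (ModuleCat.of (RR ρ0) K) 2 ∧
      ¬ Module.FinitePresentation (RR ρ0) K :=
  ⟨weak_coherent ρ0_unit Λ_zero_div, not_coherent (TrivSqZeroExt.inl xA) (TrivSqZeroExt.inl yA)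
    (by rw [ρ0_apply, TrivSqZeroExt.fst_inl, xA_res])
    (by rw [ρ0_apply, TrivSqZeroExt.fst_inl, yA_res]) Λ_pair⟩

end Q121.LC
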