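import Pool.Agent.Q121.LC.Basic

/-!
Weak coherence and failure of coherence for the ring of pairs.
-/

open CategoryTheory Filter

namespace Q121.LC

variable {Λ κ : Type} [CommRing Λ] [Field κ] {ρ : Λ →+* κ}

/-- evaluation of the sequence at `j` -/
def evh (ρ : Λ →+* κ) (j : ℕ) : RR ρ →+* κ :=
  (Pi.evalRingHom (fun _ : ℕ => κ) j).comp ((RingHom.snd Λ (ℕ → κ)).comp (RR ρ).subtype)

theorem evh_apply (j : ℕ) (a : RR ρ) : evh ρ j a = a.1.2 j := rfl

/-- the first component -/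
def fsth (ρ : Λ →+* κ) : RR ρ →+* Λ := (RingHom.fst Λ (ℕ → κ)).comp (RR ρ).subtype

theorem fsth_apply (a : RR ρ) : fsth ρ a = a.1.1 := rfl

theorem fsth_surj : Function.Surjective (fsth ρ) := fun l => ⟨lft ρ l, rfl⟩

theorem e_mul_fst (i : ℕ) (a : RR ρ) : (e ρ i * a).1.1 = 0 := by rw [e_mul]

theorem e_mul_snd (i : ℕ) (a : RR ρ) (j : ℕ) :
    (e ρ i * a).1.2 j = if j = i then a.1.2 i else 0 := by
  rw [e_mul]
  by_cases h : j = i
  · subst h; simp
  · simp [h]

theorem e_fst (i : ℕ) : (e ρ i).1.1 = 0 := rfl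

theorem e_snd (i : ℕ) : (e ρ i).1.2 i = 1 := by simp [e]

theorem sum_e (d : RR ρ) (h : d.1.1 = 0) : ∃ N : ℕ, ∀ M, N ≤ M →
    d = ∑ i ∈ Finset.range M, e ρ i * d := by
  have h1 := ev d
  rw [h, map_zero, eventually_atTop] at h1
  obtain ⟨N, hN⟩ := h1
  refine ⟨N, fun M hM => ext' ?_ ?_⟩
  · rw [h]
    change 0 = fsth ρ (∑ i ∈ Finset.range M, e ρ i * d)
    rw [map_sum]
    exact (Finset.sum_eq_zero fun i _ => e_mul_fst i d).symm
  · intro j
    change _ = evh ρ j (∑ i ∈ Finset.range M, e ρ i * d)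
    rw [map_sum]
    have h2 : ∀ i ∈ Finset.range M, evh ρ j (e ρ i * d) = if j = i then d.1.2 i else 0 :=
      fun i _ => e_mul_snd i d j
    rw [Finset.sum_congr rfl h2, Finset.sum_ite_eq]
    by_cases hj : j ∈ Finset.range M
    · rw [if_pos hj]
    · rw [if_neg hj]
      rw [Finset.mem_range] at hj
      exact hN j (by omega)

/-- the ideal of all `(0, c)` -/
def II (ρ : Λ →+* κ) : Ideal (RR ρ) := RingHom.ker (fsth ρ)

theorem mem_II (a : RR ρ) : a ∈ II ρ ↔ a.1.1 = 0 := Iff.rfl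

theorem II_projective : Module.Projective (RR ρ) (II ρ) := by
  have hfin : ∀ r : II ρ, (Function.support fun i => e ρ i * r.1).Finite := by
    intro r
    have h1 := ev r.1
    rw [(mem_II r.1).1 r.2, map_zero, eventually_atTop] at h1
    obtain ⟨N, hN⟩ := h1
    refine (Set.finite_lt_nat N).subset ?_
    intro i hi
    by_contra hc
    exact hi ((e_mul_eq_zero_iff i r.1).2 (hN i (by simpa using hc)))
  let s : II ρ →ₗ[RR ρ] (ℕ →₀ RR ρ) :=
    { toFun := fun r => Finsupp.ofSupportFinite (fun i => e ρ i * r.1) (hfin r)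
      map_add' := by
        intro a b
        ext i
        · simp [Finsupp.ofSupportFinite_coe, mul_add]
        · simp [Finsupp.ofSupportFinite_coe, mul_add]
      map_smul' := by
        intro a b
        refine Finsupp.ext fun i => ?_
        change e ρ i * (a * b.1) = a * (e ρ i * b.1)
        ring }
  refine Module.Projective.of_split s
    (Finsupp.linearCombination (RR ρ) fun i : ℕ => (⟨e ρ i, e_fst (ρ := ρ) i⟩ : II ρ)) ?_
  apply LinearMap.ext
  intro r
  apply Subtype.ext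
  obtain ⟨N, hN⟩ := sum_e r.1 r.2
  obtain ⟨M, hM⟩ : ∃ M, N ≤ M ∧ (s r).support ⊆ Finset.range M := by
    obtain ⟨M, hM⟩ := (s r).support.exists_nat_subset_range
    exact ⟨max N M, le_max_left _ _, hM.trans (Finset.range_mono (le_max_right _ _))⟩
  rw [LinearMap.comp_apply, LinearMap.id_apply, Finsupp.linearCombination_apply,
    Finsupp.sum_of_support_subset _ hM.2 _ (by simp)]
  rw [Submodule.coe_sum]
  conv_rhs => rw [hN M hM.1]
  refine Finset.sum_congr rfl fun i _ => ?_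
  change (e ρ i * r.1) * e ρ i = e ρ i * r.1
  have hee : e ρ i * e ρ i = e ρ i := by
    apply ext'
    · rw [e_mul_fst, e_fst]
    · intro j
      rw [e_mul_snd, e_snd]
      by_cases h : j = i
      · subst h; simp [e]
      · simp [e, h]
  calc (e ρ i * r.1) * e ρ i = (e ρ i * e ρ i) * r.1 := by ring
    _ = _ := by rw [hee]

theorem fg_bound (L : Ideal (RR ρ)) (hL : L.FG) (h : ∀ u ∈ L, ρ u.1.1 = 0) :
    ∀ᶠ i in atTop, ∀ l ∈ L, l.1.2 i = 0 := by
  obtain ⟨S, hS⟩ := hL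
  have h1 : ∀ᶠ i in atTop, ∀ g ∈ S, g.1.2 i = 0 := by
    rw [Filter.eventually_all_finset]
    intro g hg
    have hgL : g ∈ L := by
      rw [← hS]
      exact Submodule.subset_span hg
    filter_upwards [ev g] with i hi
    rw [hi, h g hgL]
  filter_upwards [h1] with i hi l hl
  have h2 : L ≤ RingHom.ker (evh ρ i) := by
    rw [← hS, Submodule.span_le]
    intro g hg
    exact hi g hg
  exact h2 hl

theorem II_not_fg : ¬ (II ρ).FG := by
  intro h
  obtain ⟨i, hi⟩ := (fg_bound (II ρ) h (fun u hu => by rw [(mem_II u).1 hu, map_zero])).exists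
  have h1 := hi (e ρ i) (e_fst (ρ := ρ) i)
  rw [e_snd] at h1
  exact one_ne_zero h1

/-- Failure of coherence in rank two. -/
theorem not_coherent (x y : Λ) (hx : ρ x = 0) (hy : ρ y = 0)
    (h : ∀ l : Λ, l * x = 0 → l * y = 0 → l = 0) :
    ∃ K : Submodule (RR ρ) (Fin 2 → RR ρ), K.FG ∧
      HasProjectiveDimensionLT (ModuleCat.of (RR ρ) K) 2 ∧
      ¬ Module.FinitePresentation (RR ρ) K := by
  let v : Fin 2 → RR ρ := ![z0 ρ x hx, z0 ρ y hy]
  let q : RR ρ →ₗ[RR ρ] (Fin 2 → RR ρ) := LinearMap.toSpanSingleton (RR ρ) _ v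
  have hker : LinearMap.ker q.rangeRestrict = II ρ := by
    rw [LinearMap.ker_rangeRestrict]
    ext r
    rw [LinearMap.mem_ker, mem_II]
    constructor
    · intro hr
      have h0 := congrFun hr 0
      have h1 := congrFun hr 1
      refine h _ ?_ ?_
      · exact congrArg (fsth ρ) h0
      · exact congrArg (fsth ρ) h1
    · intro hr
      funext j
      fin_cases j
      · refine ext' ?_ ?_
        · change r.1.1 * x = 0
          rw [hr, zero_mul]
        · intro i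
          change r.1.2 i * 0 = 0
          rw [mul_zero]
      · refine ext' ?_ ?_
        · change r.1.1 * y = 0
          rw [hr, zero_mul]
        · intro i
          change r.1.2 i * 0 = 0
          rw [mul_zero]
  refine ⟨LinearMap.range q, ?_, ?_, ?_⟩
  · rw [← Module.Finite.iff_fg]
    infer_instance
  · rw [pd_iff q.rangeRestrict q.surjective_rangeRestrict, hker]
    exact II_projective
  · intro hfp
    have h1 := Module.FinitePresentation.fg_ker q.rangeRestrict q.surjective_rangeRestrict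
    rw [hker] at h1
    exact II_not_fg h1

/-! ### finitely generated ideals -/

theorem e_mem (L : Ideal (RR ρ)) (i : ℕ) (h : ∃ l ∈ L, l.1.2 i ≠ 0) : e ρ i ∈ L := by
  obtain ⟨l, hl, hi⟩ := h
  have h1 : e ρ i = (⟨(0, Pi.single i (l.1.2 i)⁻¹), by
      change ∀ᶠ j in atTop, (Pi.single i (l.1.2 i)⁻¹ : ℕ → κ) j = ρ 0
      filter_upwards [eventually_gt_atTop i] with j hj
      rw [map_zero, Pi.single_eq_of_ne (by omega)]⟩ : RR ρ) * l := by
    apply ext'
    · change (0 : Λ) = 0 * l.1.1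
      rw [zero_mul]
    · intro j
      change (Pi.single i (1 : κ) : ℕ → κ) j = (Pi.single i (l.1.2 i)⁻¹ : ℕ → κ) j * l.1.2 j
      by_cases hj : j = i
      · subst hj
        rw [Pi.single_eq_same, Pi.single_eq_same, inv_mul_cancel₀ hi]
      · rw [Pi.single_eq_of_ne hj, Pi.single_eq_of_ne hj, zero_mul]
  rw [h1]
  exact L.mul_mem_left _ hl

theorem mem_of_supp (L : Ideal (RR ρ)) (d : RR ρ) (h1 : d.1.1 = 0)
    (h2 : ∀ i, d.1.2 i ≠ 0 → ∃ l ∈ L, l.1.2 i ≠ 0) : d ∈ L := by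
  obtain ⟨N, hN⟩ := sum_e d h1
  rw [hN N le_rfl]
  refine Submodule.sum_mem _ fun i _ => ?_
  by_cases h : d.1.2 i = 0
  · rw [(e_mul_eq_zero_iff i d).2 h]
    exact L.zero_mem
  · rw [mul_comm]
    exact L.mul_mem_left _ (e_mem L i (h2 i h))

theorem caseA (hu : ∀ l, ρ l ≠ 0 → IsUnit l) (L : Ideal (RR ρ)) (u : RR ρ) (huL : u ∈ L)
    (h : ρ u.1.1 ≠ 0) : ∃ g ∈ L, ∀ l ∈ L, l * g = l := by
  classical
  obtain ⟨w, hw⟩ := (hu _ h).exists_left_inv
  let wu : RR ρ := ⟨(w, fun i => (u.1.2 i)⁻¹), by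
    change ∀ᶠ i in atTop, (u.1.2 i)⁻¹ = ρ w
    filter_upwards [ev u] with i hi
    rw [hi]
    have h3 : ρ w * ρ u.1.1 = 1 := by rw [← map_mul, hw, map_one]
    exact (eq_inv_of_mul_eq_one_left h3).symm⟩
  let g : RR ρ := ⟨(1, fun i => if ∃ l ∈ L, l.1.2 i ≠ 0 then 1 else 0), by
    change ∀ᶠ i in atTop, (if ∃ l ∈ L, l.1.2 i ≠ 0 then (1 : κ) else 0) = ρ 1
    filter_upwards [ev u] with i hi
    rw [if_pos ⟨u, huL, by rw [hi]; exact h⟩, map_one]⟩
  refine ⟨g, ?_, ?_⟩
  · have h4 : g = wu * u + (g - wu * u) := by ring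
    rw [h4]
    refine L.add_mem (L.mul_mem_left _ huL) (mem_of_supp L _ ?_ ?_)
    · change 1 - w * u.1.1 = 0
      rw [hw, sub_self]
    · intro i hi
      by_contra hc
      apply hi
      change (if ∃ l ∈ L, l.1.2 i ≠ 0 then (1 : κ) else 0) - (u.1.2 i)⁻¹ * u.1.2 i = 0
      rw [if_neg hc]
      have h5 : u.1.2 i = 0 := by
        by_contra h6
        exact hc ⟨u, huL, h6⟩
      rw [h5]
      simp
  · intro l hl
    apply ext'
    · change l.1.1 * 1 = l.1.1
      rw [mul_one]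
    · intro i
      change l.1.2 i * (if ∃ l ∈ L, l.1.2 i ≠ 0 then (1 : κ) else 0) = l.1.2 i
      by_cases h6 : l.1.2 i = 0
      · rw [h6, zero_mul]
      · rw [if_pos ⟨l, hl, h6⟩, mul_one]

theorem caseB1 (L : Ideal (RR ρ)) (hL : L.FG) (h : ∀ u ∈ L, u.1.1 = 0) :
    ∃ g ∈ L, ∀ l ∈ L, l * g = l := by
  classical
  let g : RR ρ := ⟨(0, fun i => if ∃ l ∈ L, l.1.2 i ≠ 0 then 1 else 0), by
    change ∀ᶠ i in atTop, (if ∃ l ∈ L, l.1.2 i ≠ 0 then (1 : κ) else 0) = ρ 0
    filter_upwards [fg_bound L hL (fun u hu => by rw [h u hu, map_zero])] with i hi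
    rw [if_neg, map_zero]
    rintro ⟨l, hl, hl2⟩
    exact hl2 (hi l hl)⟩
  refine ⟨g, mem_of_supp L g rfl ?_, ?_⟩
  · intro i hi
    by_contra hc
    apply hi
    change (if ∃ l ∈ L, l.1.2 i ≠ 0 then (1 : κ) else 0) = 0
    rw [if_neg hc]
  · intro l hl
    apply ext'
    · change l.1.1 * 0 = l.1.1
      rw [mul_zero, h l hl]
    · intro i
      change l.1.2 i * (if ∃ l ∈ L, l.1.2 i ≠ 0 then (1 : κ) else 0) = l.1.2 i
      by_cases h6 : l.1.2 i = 0
      · rw [h6, zero_mul]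
      · rw [if_pos ⟨l, hl, h6⟩, mul_one]

end Q121.LC
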